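import Mathlib
import Pool.Agent.Q2.TN.Main
import Pool.Agent.Q2.TN.Least

/-!
# MP_20903f_al, Q1: full (positive) answer

For every odd prime `p`, every finite group `G` and every Sylow `p`-subgroup `P` of `G`: the group `G` is
`p`-nilpotent if and only if `N_G(P)` is `p`-nilpotent and, for each `x` outside `N_G(P)`, each subgroup of
order `p` of `G^{U_p} ∩ P ∩ P^x` is c-embedded in `P` with respect to `P`.
-/

set_option autoImplicit false

namespace Pool.Agent.Results.MP_20903f_al.CEmbeddedInSylow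

open Subgroup

/-- `H / K` is a chief factor of `G`. -/
def IsChiefFactor {G : Type} [Group G] (K H : Subgroup G) : Prop :=
  K.Normal ∧ H.Normal ∧ K < H ∧ ∀ L : Subgroup G, L.Normal → K ≤ L → L ≤ H → L = K ∨ L = H

/-- `G` is `p`-nilpotent: it has a normal Hall `p'`-subgroup. -/
def IsPNilpotent (p : ℕ) (G : Type) [Group G] : Prop :=
  ∃ N : Subgroup G, N.Normal ∧ (Nat.card N).Coprime p ∧ ∃ k : ℕ, N.index = p ^ k

/-- `G` is `p`-solvable: each chief factor is a `p`-group or a `p'`-group. -/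
def IsPSolvable (p : ℕ) (G : Type) [Group G] : Prop :=
  ∀ K H : Subgroup G, IsChiefFactor K H →
    (∃ k : ℕ, K.relIndex H = p ^ k) ∨ (K.relIndex H).Coprime p

/-- `G` is `p`-supersolvable: it is `p`-solvable and each chief factor that is a `p`-group has order `p`. -/
def IsPSupersolvable (p : ℕ) (G : Type) [Group G] : Prop :=
  IsPSolvable p G ∧
    ∀ K H : Subgroup G, IsChiefFactor K H → (∃ k : ℕ, K.relIndex H = p ^ k) → K.relIndex H = p

/-- `G^{U_p}`, the intersection of all normal subgroups with `p`-supersolvable quotient; it is the smallest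
of them by the first part of `result`. -/
def residual (p : ℕ) (G : Type) [Group G] : Subgroup G :=
  sInf {N : Subgroup G | ∃ _ : N.Normal, IsPSupersolvable p (G ⧸ N)}

/-- `H ≤ K` is c-embedded in `G` with respect to `K`: some `B ≤ G` has `G = HB` and `H ∩ B ≤ Z(K)`. -/
def CEmbedded {G : Type} [Group G] (H K : Subgroup G) : Prop :=
  ∃ B : Subgroup G, (∀ g : G, ∃ h ∈ H, ∃ b ∈ B, g = h * b) ∧ H ⊓ B ≤ (center K).map K.subtype

/-- Condition (2'): for each `x` outside `N_G(P)` each subgroup of order `p` of `G^{U_p} ∩ P ∩ P^x`, where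
`P^x = x⁻¹ P x`, is c-embedded in the group `P` with respect to `P`. -/
def Condition2' (p : ℕ) {G : Type} [Group G] (P : Subgroup G) : Prop :=
  ∀ x : G, x ∉ normalizer (P : Set G) → ∀ H : Subgroup G, Nat.card H = p →
    H ≤ residual p G ⊓ P ⊓ P.map (MulAut.conj x⁻¹).toMonoidHom →
      CEmbedded (H.subgroupOf P) (⊤ : Subgroup P)

theorem pss_iff {p : ℕ} (hp : p.Prime) {G : Type} [Group G] :
    IsPSupersolvable p G ↔ Q2.TN.IsPSS p G := by
  constructor
  · rintro ⟨h1, h2⟩ K H hKH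
    rcases h1 K H hKH with h | h
    · exact Or.inl (h2 K H hKH h)
    · exact Or.inr h
  · intro h
    refine ⟨?_, ?_⟩
    · intro K H hKH
      rcases h K H hKH with h' | h'
      · exact Or.inl ⟨1, by rw [h', pow_one]⟩
      · exact Or.inr h'
    · rintro K H hKH ⟨k, hk⟩
      rcases h K H hKH with h' | h'
      · exact h'
      · exfalso
        rw [hk] at h'
        rcases Nat.eq_zero_or_pos k with h0 | h0
        · rw [h0, pow_zero] at hk
          exact absurd (Subgroup.relIndex_eq_one.1 hk) (not_le_of_gt hKH.2.2.1)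
        · have h3 : p ∣ p ^ k := dvd_pow_self p h0.ne'
          have h4 := Nat.Coprime.eq_one_of_dvd h'.symm h3
          exact hp.one_lt.ne' h4

theorem set_eq {p : ℕ} (hp : p.Prime) (G : Type) [Group G] :
    {N : Subgroup G | ∃ _ : N.Normal, IsPSupersolvable p (G ⧸ N)} =
      {N : Subgroup G | ∃ _ : N.Normal, Q2.TN.IsPSS p (G ⧸ N)} := by
  ext N
  constructor
  · rintro ⟨h, h'⟩
    exact ⟨h, (pss_iff hp).1 h'⟩
  · rintro ⟨h, h'⟩
    exact ⟨h, (pss_iff hp).2 h'⟩

theorem residual_eq {p : ℕ} (hp : p.Prime) (G : Type) [Group G] :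
    residual p G = Q2.TN.superRes p G := by
  unfold residual Q2.TN.superRes
  rw [set_eq hp G]

theorem cemb_iff {G : Type} [Group G] (H P : Subgroup G) (hHP : H ≤ P) :
    CEmbedded (H.subgroupOf P) (⊤ : Subgroup P) ↔ Q2.TN.CEmb H P := by
  constructor
  · rintro ⟨B, h1, h2⟩
    refine ⟨B.map P.subtype, ?_, ?_, ?_⟩
    · rintro _ ⟨b, -, rfl⟩
      exact b.2
    · intro x hx
      obtain ⟨h, hh, b, hb, he⟩ := h1 ⟨x, hx⟩
      exact ⟨h, hh, b, ⟨b, hb, rfl⟩, congrArg Subtype.val he⟩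
    · rintro x hx ⟨b, hb, rfl⟩ y hy
      have h3 : b ∈ H.subgroupOf P ⊓ B := ⟨hx, hb⟩
      obtain ⟨z, hz, hzb⟩ := h2 h3
      have h4 := Subgroup.mem_center_iff.1 hz ⟨⟨y, hy⟩, Subgroup.mem_top _⟩
      have h5 := congrArg (fun t : (⊤ : Subgroup P) => ((t : P) : G)) h4
      have h6 : ((z : P) : G) = (b : G) := congrArg Subtype.val hzb
      change y * ((z : P) : G) = ((z : P) : G) * y at h5
      rw [h6] at h5
      exact h5.symm
  · rintro ⟨B, hB, h1, h2⟩
    refine ⟨B.subgroupOf P, ?_, ?_⟩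
    · rintro ⟨g, hg⟩
      obtain ⟨h, hh, b, hb, he⟩ := h1 g hg
      exact ⟨⟨h, hHP hh⟩, hh, ⟨b, hB hb⟩, hb, Subtype.ext he⟩
    · rintro ⟨b, hb⟩ ⟨h3, h4⟩
      refine ⟨⟨⟨b, hb⟩, Subgroup.mem_top _⟩, ?_, rfl⟩
      apply Subgroup.mem_center_iff.2
      rintro ⟨⟨y, hy⟩, -⟩
      apply Subtype.ext
      apply Subtype.ext
      exact (h2 b h3 h4 y hy).symm

theorem cond_iff {p : ℕ} (hp : p.Prime) {G : Type} [Group G] (P : Subgroup G) :
    Condition2' p P ↔ Q2.TN.Cond p P := by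
  have key : ∀ (x : G) (H : Subgroup G),
      H ≤ residual p G ⊓ P ⊓ P.map (MulAut.conj x⁻¹).toMonoidHom ↔
        ∀ h ∈ H, h ∈ Q2.TN.superRes p G ∧ h ∈ P ∧ x * h * x⁻¹ ∈ P := by
    intro x H
    rw [residual_eq hp]
    constructor
    · intro h a ha
      obtain ⟨⟨h1, h2⟩, h3⟩ := h ha
      refine ⟨h1, h2, ?_⟩
      obtain ⟨y, hy, rfl⟩ := h3
      have h4 : x * (x⁻¹ * y * x) * x⁻¹ = y := by group
      simpa [h4] using hy
    · intro h a ha
      obtain ⟨h1, h2, h3⟩ := h a ha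
      refine ⟨⟨h1, h2⟩, ⟨x * a * x⁻¹, h3, ?_⟩⟩
      change x⁻¹ * (x * a * x⁻¹) * x⁻¹⁻¹ = a
      group
  constructor
  · intro h x hx H hH hle
    exact (cemb_iff H P (fun a ha => (hle a ha).2.1)).1 (h x hx H hH ((key x H).2 hle))
  · intro h x hx H hH hle
    have h1 := (key x H).1 hle
    exact (cemb_iff H P (fun a ha => (h1 a ha).2.1)).2 (h x hx H hH h1)

/-- Full answer to Q1 of MP_20903f_al (positive). -/
theorem result :
    (∀ (p : ℕ), p.Prime → ∀ (G : Type) [Group G] [Finite G],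
      IsLeast {N : Subgroup G | ∃ _ : N.Normal, IsPSupersolvable p (G ⧸ N)} (residual p G)) ∧
    ∀ (p : ℕ) [Fact p.Prime], p ≠ 2 → ∀ (G : Type) [Group G] [Finite G] (P : Sylow p G),
      (IsPNilpotent p G ↔
        IsPNilpotent p (normalizer ((P : Subgroup G) : Set G)) ∧ Condition2' p (P : Subgroup G)) := by
  refine ⟨?_, ?_⟩
  · intro p hp G _ _
    rw [residual_eq hp, set_eq hp]
    exact Q2.TN.Least.isLeast p hp G
  · intro p hp hp2 G _ _ P
    rw [cond_iff hp.out]
    exact Q2.TN.Fin.main p hp.out hp2 G (P : Subgroup G) ⟨P.isPGroup', P.not_dvd_index⟩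

end Pool.Agent.Results.MP_20903f_al.CEmbeddedInSylow
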